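import Mathlib
import Pool.Agent.H.MP_b41bf9_ag.Dyn

namespace Pool.Agent.Results.MP_b41bf9_ag.NoMaximal

open MvPolynomial

/-- the subvariety of affine space cut out by `I` is geometrically nilpotent for `T`: every
irreducible component has all its geometric points eventually sent to one fixed point -/
def GeomNil {F : Type} [Field F] {n : ℕ}
    (T : (Fin n → AlgebraicClosure F) → (Fin n → AlgebraicClosure F))
    (I : Ideal (MvPolynomial (Fin n) F)) : Prop :=
  ∀ 𝔭 ∈ I.minimalPrimes, ∃ P, T P = P ∧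
    ∀ y ∈ zeroLocus (AlgebraicClosure F) 𝔭, ∃ j, 1 ≤ j ∧ T^[j] y = P

open Pool.Agent.H.MP_b41bf9_ag in
theorem result (F : Type) [Field F] [Finite F] :
    ∃ (G : Fin 3 → MvPolynomial (Fin 3) F)
      (T : (Fin 3 → AlgebraicClosure F) → (Fin 3 → AlgebraicClosure F)),
      (∀ y i, T y i = aeval y (G i)) ∧
      ¬ ∃ Y : Ideal (MvPolynomial (Fin 3) F), GeomNil T Y ∧
        ∀ Z : Ideal (MvPolynomial (Fin 3) F), GeomNil T Z → ∃ k m : ℕ,
          zeroLocus (AlgebraicClosure F) Z ⊆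
            T^[k] ⁻¹' (T^[m] '' zeroLocus (AlgebraicClosure F) Y) := by
  refine ⟨![X 0 * (X 1 - X 2) * (X 0 * X 2), X 0 * (X 1 - X 2) * (X 0 * X 1),
    X 0 * (X 1 - X 2) * (X 2 * X 2)], T, fun y i => by fin_cases i <;> simp [T], ?_⟩
  classical
  rintro ⟨Y, hY, hmax⟩
  obtain ⟨p, hp⟩ := CharP.exists F
  have hpp : p.Prime := CharP.char_is_prime F p
  have hpf := Fact.mk hpp
  have hK : CharP (AlgebraicClosure F) p := inferInstance
  have hord : ∀ v : AlgebraicClosure F, v ≠ 0 → ∃ N, 0 < N ∧ N.Coprime p ∧ v ^ N = 1 := by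
    intro v hv
    have hint : IsIntegral F v := Algebra.IsIntegral.isIntegral v
    have hfd := IntermediateField.adjoin.finiteDimensional hint
    have hfin : Finite (IntermediateField.adjoin F {v}) := Module.finite_of_finite F
    have := Fintype.ofFinite (IntermediateField.adjoin F {v})
    obtain ⟨e, -, he⟩ := FiniteField.card (IntermediateField.adjoin F {v}) p
    have h1 := FiniteField.pow_card_sub_one_eq_one (IntermediateField.AdjoinSimple.gen F v)
      (fun h => hv (congrArg Subtype.val h))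
    have h2 : 1 < p ^ (e : ℕ) := Nat.one_lt_pow e.ne_zero hpp.one_lt
    refine ⟨p ^ (e : ℕ) - 1, by omega, ?_, ?_⟩
    · exact ((Nat.coprime_self_sub_left (by omega)).mpr (by simp)).coprime_dvd_right
        (dvd_pow_self p e.ne_zero)
    · rw [← he]
      exact congrArg Subtype.val h1
  have hfix : ∀ y ∈ zeroLocus (AlgebraicClosure F) Y, ∃ j, T (T^[j] y) = T^[j] y := by
    intro y hy
    have hle : Y ≤ RingHom.ker (aeval y : MvPolynomial (Fin 3) F →ₐ[F] AlgebraicClosure F) :=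
      fun f hf => hy f hf
    have hpr := RingHom.ker_isPrime (aeval y : MvPolynomial (Fin 3) F →ₐ[F] AlgebraicClosure F)
    obtain ⟨𝔭, h1, h2⟩ := Ideal.exists_minimalPrimes_le hle
    obtain ⟨P, h3, h4⟩ := hY 𝔭 h1
    obtain ⟨j, -, h5⟩ := h4 y fun f hf => h2 hf
    exact ⟨j, by rw [h5, h3]⟩
  obtain ⟨H, hH, hH0⟩ : ∃ H ∈ Y, H ≠ 0 := by
    by_contra hn
    push Not at hn
    obtain ⟨u, hu⟩ := Infinite.exists_notMem_finset ({0, 1} : Finset (AlgebraicClosure F))
    simp only [Finset.mem_insert, Finset.mem_singleton, not_or] at hu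
    obtain ⟨N, hN, -, h1⟩ := hord u hu.1
    obtain ⟨v, hv⟩ := Infinite.exists_notMem_finset
      (insert 0 (Polynomial.nthRootsFinset N (1 : AlgebraicClosure F)))
    rw [Finset.mem_insert, not_or, Polynomial.mem_nthRootsFinset hN] at hv
    obtain ⟨j, hj⟩ := hfix (P u v 1) fun f hf => by rw [hn f hf, map_zero]
    refine lives u v hu.1 hu.2 hv.1 (fun i hi => hv.2 ?_) j hj
    have := congrArg (· ^ N) hi
    simp only [mul_pow, one_pow] at this
    rwa [← pow_mul, mul_comm i N, pow_mul, h1, one_pow, one_mul] at this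
  obtain ⟨q, hq⟩ : ∃ q, q = p ^ H.totalDegree := ⟨_, rfl⟩
  have hq1 : H.totalDegree < q := hq ▸ Nat.lt_pow_self hpp.one_lt
  have hZ : ∀ y, y ∈ zeroLocus (AlgebraicClosure F)
      (Ideal.span {(X 1 ^ q - X 0 * X 2 ^ (q - 1) : MvPolynomial (Fin 3) F)}) ↔
      y 1 ^ q = y 0 * y 2 ^ (q - 1) := by
    intro y
    rw [zeroLocus_span]
    simp [sub_eq_zero]
  obtain ⟨k, m, h⟩ := hmax (Ideal.span {X 1 ^ q - X 0 * X 2 ^ (q - 1)}) (by
    intro 𝔭 h𝔭
    refine ⟨0, T_zero, fun y hy => dies q (by omega) (fun v hv => ?_) y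
      ((hZ y).mp (zeroLocus_anti_mono h𝔭.1.2 hy))⟩
    obtain ⟨N, h1, h2, h3⟩ := hord v hv
    exact ⟨N, h1, hq ▸ h2.pow_right _, h3⟩)
  have hinj := (algebraMap F (AlgebraicClosure F)).injective
  refine no_cover (MvPolynomial.map (algebraMap F (AlgebraicClosure F)) H)
    (fun h0 => hH0 (map_injective _ hinj (by rw [h0, map_zero]))) q k m
    (lt_of_le_of_lt (Finset.sup_mono (support_map_subset _ _)) hq1) fun y hy => ?_
  obtain ⟨y', h1, h2⟩ := h ((hZ y).mpr hy)
  exact ⟨y', by rw [eval_map, ← aeval_def]; exact h1 H hH, h2⟩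

end Pool.Agent.Results.MP_b41bf9_ag.NoMaximal
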